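import Mathlib

-- part MP_0ce33b_an.Defs
section

/-!
Hardy space, Toeplitz operators, 2 x 2 block Toeplitz operators and subnormal operators.
The unit circle is `AddCircle 1` with normalised Haar measure; `fourier k` is the function `z ^ k`.
-/

namespace Pool.Agent.MP_0ce33b_an

open MeasureTheory

/-- The space L^2 of the unit circle. -/
abbrev L2 : Type := Lp ℂ 2 (AddCircle.haarAddCircle (T := 1))

/-- The space L^infinity of the unit circle. -/
abbrev Linf : Type := Lp ℂ ⊤ (AddCircle.haarAddCircle (T := 1))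

/-- The Hardy space H^2: the functions in L^2 orthogonal to all `z ^ k` with `k < 0`. -/
noncomputable abbrev hardy : Submodule ℂ L2 :=
  (Submodule.span ℂ {f : L2 | ∃ k : ℤ, k < 0 ∧ f = fourierLp 2 k})ᗮ

/-- Multiplication by an L^infinity function, as an operator on L^2. -/
noncomputable def mulOp (φ : Linf) : L2 →L[ℂ] L2 :=
  (ContinuousLinearMap.mul ℂ ℂ).holderL (AddCircle.haarAddCircle (T := 1)) ⊤ 2 2 φ

/-- The Toeplitz operator `f ↦ P (φ f)` on H^2. -/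
noncomputable def toeplitz (φ : Linf) : hardy →L[ℂ] hardy :=
  hardy.orthogonalProjectionOnto ∘L mulOp φ ∘L hardy.subtypeL

/-- The Hilbert space direct sum of two copies of H^2. -/
abbrev H2sum : Type := WithLp 2 (hardy × hardy)

/-- The operator `(f, g) ↦ (T_Φ f + T_α g, T_β f + T_Ψ g)` on the direct sum. -/
noncomputable def blockToeplitz (Φ α β Ψ : Linf) : H2sum →L[ℂ] H2sum :=
  (WithLp.prodContinuousLinearEquiv 2 ℂ hardy hardy).symm.toContinuousLinearMap ∘L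
    (((toeplitz Φ).coprod (toeplitz α)).prod ((toeplitz β).coprod (toeplitz Ψ))) ∘L
      (WithLp.prodContinuousLinearEquiv 2 ℂ hardy hardy).toContinuousLinearMap

/-- `T` is subnormal: the space embeds isometrically into a Hilbert space `K` carrying a normal
operator `N` that leaves the image invariant and restricts to `T` there. -/
def IsSubnormal.{u} (T : H2sum →L[ℂ] H2sum) : Prop :=
  ∃ (K : Type u) (_ : NormedAddCommGroup K) (_ : InnerProductSpace ℂ K) (_ : CompleteSpace K)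
    (ι : H2sum →ₗᵢ[ℂ] K) (N : K →L[ℂ] K), IsStarNormal N ∧ ∀ x, N (ι x) = ι (T x)

/-- `φ` is a co-analytic polynomial of degree `n`. -/
def IsCoanalyticPoly (n : ℕ) (φ : Linf) : Prop :=
  ∃ a : ℕ → ℂ, a n ≠ 0 ∧
    φ =ᵐ[AddCircle.haarAddCircle (T := 1)]
      fun x => ∑ k ∈ Finset.range (n + 1), a k * fourier (-(k : ℤ)) x

/-- `φ` is a trigonometric polynomial of degree at most `n`. -/
def IsTrigPoly (n : ℕ) (φ : Linf) : Prop :=
  ∃ c : ℤ → ℂ,
    φ =ᵐ[AddCircle.haarAddCircle (T := 1)]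
      fun x => ∑ k ∈ Finset.Icc (-(n : ℤ)) n, c k * fourier k x

end Pool.Agent.MP_0ce33b_an

end

-- part MP_0ce33b_an.Basic
section

namespace Pool.Agent.MP_0ce33b_an

open MeasureTheory Filter Topology
open scoped InnerProductSpace ComplexConjugate

noncomputable section

abbrev μ0 : Measure (AddCircle (1 : ℝ)) := AddCircle.haarAddCircle (T := 1)

def e (k : ℤ) : L2 := fourierLp 2 k

def c (k : ℤ) (f : L2) : ℂ := ⟪e k, f⟫_ℂ

def Z (k : ℤ) : L2 →L[ℂ] L2 := mulOp (fourierLp ⊤ k)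

def P : L2 →L[ℂ] L2 := hardy.starProjection

def Ng : L2 →L[ℂ] L2 := 1 - P

lemma coeFn_M (φ : Linf) (f : L2) : mulOp φ f =ᵐ[μ0] fun x => φ x * f x := by
  have := (ContinuousLinearMap.mul ℂ ℂ).coeFn_holder (r := 2) φ f
  simpa [mulOp] using this

lemma M_comm (φ ψ : Linf) (f : L2) : mulOp φ (mulOp ψ f) = mulOp ψ (mulOp φ f) := by
  apply Lp.ext
  filter_upwards [coeFn_M φ (mulOp ψ f), coeFn_M ψ f, coeFn_M ψ (mulOp φ f), coeFn_M φ f]
    with x h1 h2 h3 h4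
  rw [h1, h2, h3, h4]; ring

lemma inner_M (φ : Linf) (f g : L2) : ⟪mulOp φ f, g⟫_ℂ = ⟪f, mulOp (star φ) g⟫_ℂ := by
  rw [L2.inner_def, L2.inner_def]
  apply integral_congr_ae
  filter_upwards [coeFn_M φ f, coeFn_M (star φ) g, Lp.coeFn_star φ] with x h1 h2 h3
  rw [h1, h2, h3]
  simp only [RCLike.inner_apply, map_mul, Pi.star_apply, RCLike.star_def]
  ring

lemma inner_M' (φ : Linf) (f g : L2) : ⟪mulOp (star φ) f, g⟫_ℂ = ⟪f, mulOp φ g⟫_ℂ := by
  rw [inner_M, star_star]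

lemma star_M (φ : Linf) (f : L2) : star (mulOp φ f) = mulOp (star φ) (star f) := by
  apply Lp.ext
  filter_upwards [Lp.coeFn_star (mulOp φ f), coeFn_M φ f, coeFn_M (star φ) (star f),
    Lp.coeFn_star φ, Lp.coeFn_star f] with x h1 h2 h3 h4 h5
  rw [h1, h3, h4, h5]
  simp [h2]

lemma inner_star_star (f g : L2) : ⟪star f, star g⟫_ℂ = ⟪g, f⟫_ℂ := by
  rw [L2.inner_def, L2.inner_def]
  apply integral_congr_ae
  filter_upwards [Lp.coeFn_star f, Lp.coeFn_star g] with x h1 h2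
  rw [h1, h2]
  simp [RCLike.inner_apply, mul_comm]

lemma star_e (k : ℤ) : star (e k) = e (-k) := by
  apply Lp.ext
  filter_upwards [Lp.coeFn_star (e k), coeFn_fourierLp (T := 1) 2 k,
    coeFn_fourierLp (T := 1) 2 (-k)] with x h1 h2 h3
  rw [h1]
  simp only [e, Pi.star_apply]
  rw [h2, h3, fourier_neg]; rfl

lemma star_fourier (k : ℤ) : star (fourierLp (T := 1) ⊤ k) = fourierLp ⊤ (-k) := by
  apply Lp.ext
  filter_upwards [Lp.coeFn_star (fourierLp (T := 1) ⊤ k), coeFn_fourierLp (T := 1) ⊤ k,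
    coeFn_fourierLp (T := 1) ⊤ (-k)] with x h1 h2 h3
  rw [h1]
  simp only [Pi.star_apply]
  rw [h2, h3, fourier_neg]; rfl

lemma coeFn_Z (k : ℤ) (f : L2) : Z k f =ᵐ[μ0] fun x => fourier k x * f x := by
  filter_upwards [coeFn_M (fourierLp ⊤ k) f, coeFn_fourierLp (T := 1) ⊤ k] with x h1 h2
  rw [Z, h1, h2]

lemma Z_e (k j : ℤ) : Z k (e j) = e (k + j) := by
  apply Lp.ext
  filter_upwards [coeFn_Z k (e j), coeFn_fourierLp (T := 1) 2 j,
    coeFn_fourierLp (T := 1) 2 (k + j)] with x h1 h2 h3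
  rw [h1]
  simp only [e]
  rw [h2, h3, fourier_add]

lemma inner_Z (k : ℤ) (f g : L2) : ⟪Z k f, g⟫_ℂ = ⟪f, Z (-k) g⟫_ℂ := by
  rw [Z, inner_M, star_fourier]; rfl

lemma c_Z (j k : ℤ) (f : L2) : c j (Z k f) = c (j - k) f := by
  have := inner_Z (-k) (e j) f
  rw [neg_neg, Z_e] at this
  rw [c, ← this, c]; congr 2; ring

lemma Z_M (k : ℤ) (φ : Linf) (f : L2) : Z k (mulOp φ f) = mulOp φ (Z k f) := M_comm _ _ _

lemma c_add (k : ℤ) (f g : L2) : c k (f + g) = c k f + c k g := by simp [c, inner_add_right]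

lemma c_sub (k : ℤ) (f g : L2) : c k (f - g) = c k f - c k g := by simp [c, inner_sub_right]

lemma c_smul (k : ℤ) (t : ℂ) (f : L2) : c k (t • f) = t * c k f := by simp [c, inner_smul_right]

lemma c_zero (k : ℤ) : c k 0 = 0 := by simp [c]

lemma c_sum {ι : Type} (k : ℤ) (s : Finset ι) (f : ι → L2) :
    c k (∑ i ∈ s, f i) = ∑ i ∈ s, c k (f i) := by simp [c, inner_sum]

lemma c_e (k j : ℤ) : c k (e j) = if k = j then 1 else 0 :=
  orthonormal_iff_ite.mp (orthonormal_fourier (T := 1)) k j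

lemma c_star (k : ℤ) (f : L2) : c k (star f) = conj (c (-k) f) := by
  have h : e k = star (e (-k)) := by rw [star_e, neg_neg]
  rw [c, h, inner_star_star, c, inner_conj_symm]

lemma hasSum_inner (f g : L2) : HasSum (fun k => conj (c k f) * c k g) ⟪f, g⟫_ℂ := by
  have := (fourierBasis (T := 1)).hasSum_inner_mul_inner f g
  simp only [coe_fourierBasis] at this
  have h : (fun k => conj (c k f) * c k g)
      = fun k => ⟪f, fourierLp (T := 1) 2 k⟫_ℂ * ⟪fourierLp (T := 1) 2 k, g⟫_ℂ := by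
    funext k
    rw [c, c, inner_conj_symm]; rfl
  rw [h]; exact this

lemma ext_c {f g : L2} (h : ∀ k, c k f = c k g) : f = g := by
  have h1 := hasSum_inner (f - g) (f - g)
  simp only [c_sub, h, sub_self, mul_zero] at h1
  have := h1.unique hasSum_zero
  rw [inner_self_eq_zero] at this
  exact sub_eq_zero.mp this

lemma Z_Z (k j : ℤ) (f : L2) : Z k (Z j f) = Z (k + j) f := by
  apply ext_c; intro i; rw [c_Z, c_Z, c_Z]; congr 1; ring

lemma Z_zero (f : L2) : Z 0 f = f := by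
  apply ext_c; intro i; rw [c_Z, sub_zero]

lemma inner_Z_Z (k : ℤ) (f g : L2) : ⟪Z k f, Z k g⟫_ℂ = ⟪f, g⟫_ℂ := by
  rw [inner_Z, Z_Z, neg_add_cancel, Z_zero]

lemma mem_hardy {f : L2} : f ∈ hardy ↔ ∀ k < 0, c k f = 0 := by
  constructor
  · intro h k hk
    exact (Submodule.mem_orthogonal _ _).mp h _ (Submodule.subset_span ⟨k, hk, rfl⟩)
  · intro h
    rw [Submodule.mem_orthogonal]
    intro u hu
    induction hu using Submodule.span_induction with
    | mem x hx => obtain ⟨k, hk, rfl⟩ := hx; exact h k hk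
    | zero => simp
    | add x y _ _ hx hy => rw [inner_add_left, hx, hy, add_zero]
    | smul t x _ hx => rw [inner_smul_left, hx, mul_zero]

lemma P_mem (f : L2) : P f ∈ hardy := Submodule.starProjection_apply_mem _ _

lemma P_eq {f : L2} (h : f ∈ hardy) : P f = f := Submodule.starProjection_eq_self_iff.mpr h

lemma Ng_apply (f : L2) : Ng f = f - P f := rfl

lemma Ng_eq {f : L2} (h : f ∈ hardy) : Ng f = 0 := by rw [Ng_apply, P_eq h, sub_self]

lemma inner_Ng_mem (f : L2) {g : L2} (h : g ∈ hardy) : ⟪Ng f, g⟫_ℂ = 0 :=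
  Submodule.starProjection_inner_eq_zero f g h

lemma e_mem {k : ℤ} (hk : 0 ≤ k) : e k ∈ hardy := by
  rw [mem_hardy]; intro j hj; rw [c_e, if_neg]; omega

lemma c_Ng (k : ℤ) (f : L2) : c k (Ng f) = if k < 0 then c k f else 0 := by
  split_ifs with h
  · rw [Ng_apply, c_sub, mem_hardy.mp (P_mem f) k h, sub_zero]
  · have := inner_Ng_mem f (e_mem (not_lt.mp h))
    rw [c, ← inner_conj_symm, this, map_zero]

lemma mem_of_Ng {f : L2} (h : Ng f = 0) : f ∈ hardy := by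
  rw [Ng_apply, sub_eq_zero] at h; rw [h]; exact P_mem f

lemma inner_split (f g : L2) : ⟪f, g⟫_ℂ = ⟪P f, P g⟫_ℂ + ⟪Ng f, Ng g⟫_ℂ := by
  have hf : f = P f + Ng f := by rw [Ng_apply]; abel
  have hg : g = P g + Ng g := by rw [Ng_apply]; abel
  have h1 : ⟪Ng f, P g⟫_ℂ = 0 := inner_Ng_mem f (P_mem g)
  have h2 : ⟪P f, Ng g⟫_ℂ = 0 := by
    rw [← inner_conj_symm, inner_Ng_mem g (P_mem f), map_zero]
  conv_lhs => rw [hf, hg]
  rw [inner_add_left, inner_add_right, inner_add_right, h1, h2]; ring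

lemma norm_split (f : L2) : ‖f‖ ^ 2 = ‖P f‖ ^ 2 + ‖Ng f‖ ^ 2 := by
  have := inner_split f f
  rw [inner_self_eq_norm_sq_to_K, inner_self_eq_norm_sq_to_K, inner_self_eq_norm_sq_to_K] at this
  exact_mod_cast this

lemma inner_Ng_left (f g : L2) : ⟪Ng f, Ng g⟫_ℂ = ⟪Ng f, g⟫_ℂ := by
  conv_lhs => rw [Ng_apply g, inner_sub_right, inner_Ng_mem f (P_mem g), sub_zero]

lemma Z_mem {k : ℤ} (hk : 0 ≤ k) {f : L2} (h : f ∈ hardy) : Z k f ∈ hardy := by
  rw [mem_hardy] at *; intro j hj; rw [c_Z]; apply h; omega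

lemma Ng_shift (f : L2) : Ng f = Z (-1) (Ng (Z 1 f)) + c (-1) f • e (-1) := by
  apply ext_c; intro k
  rw [c_add, c_smul, c_Z, c_Ng, c_Ng, c_Z, c_e]
  by_cases h : k = -1
  · subst h; simp
  · by_cases h2 : k < 0
    · rw [if_pos h2, if_pos (by omega), if_neg h]; simp
    · rw [if_neg h2, if_neg (by omega), if_neg h]; simp

lemma inner_Ng_shift (f g : L2) :
    ⟪Ng f, Ng g⟫_ℂ = ⟪Ng (Z 1 f), Ng (Z 1 g)⟫_ℂ + conj (c (-1) f) * c (-1) g := by
  have h1 : ∀ u : L2, ⟪e (-1), Z (-1) (Ng u)⟫_ℂ = 0 := by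
    intro u
    have : c (-1) (Z (-1) (Ng u)) = 0 := by rw [c_Z, c_Ng, if_neg]; omega
    exact this
  have h2 : ∀ u : L2, ⟪Z (-1) (Ng u), e (-1)⟫_ℂ = 0 := by
    intro u; rw [← inner_conj_symm, h1, map_zero]
  have h3 : ⟪e (-1), e (-1)⟫_ℂ = 1 := by have := c_e (-1) (-1); simpa [c] using this
  conv_lhs => rw [Ng_shift f, Ng_shift g]
  rw [inner_add_left, inner_add_right, inner_add_right, inner_Z_Z, inner_smul_right, inner_smul_left,
    inner_smul_left, inner_smul_right, h1, h2, h3]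
  ring

lemma B0 {f g : L2} (hf : f ∈ hardy) (hg : g ∈ hardy) : ⟪star f, g⟫_ℂ = c 0 f * c 0 g := by
  have h1 := hasSum_inner (star f) g
  have h2 : HasSum (fun k => conj (c k (star f)) * c k g) (conj (c 0 (star f)) * c 0 g) := by
    apply hasSum_single
    intro k hk
    rcases lt_or_gt_of_ne hk with h | h
    · rw [mem_hardy.mp hg k h, mul_zero]
    · rw [c_star, mem_hardy.mp hf (-k) (by omega)]; simp
  rw [h1.unique h2, c_star]; simp

lemma B_M (φ : Linf) (f g : L2) : ⟪star (mulOp φ f), g⟫_ℂ = ⟪star f, mulOp φ g⟫_ℂ := by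
  rw [star_M, inner_M']

lemma norm_Ng_le (f : L2) : ‖Ng f‖ ≤ ‖f‖ := by
  have := norm_split f
  nlinarith [norm_nonneg (Ng f), norm_nonneg f, sq_nonneg ‖P f‖]

lemma norm_Z (k : ℤ) (f : L2) : ‖Z k f‖ = ‖f‖ := by
  have := inner_Z_Z k f f
  rw [inner_self_eq_norm_sq_to_K, inner_self_eq_norm_sq_to_K] at this
  have h : ‖Z k f‖ ^ 2 = ‖f‖ ^ 2 := by exact_mod_cast this
  exact (sq_eq_sq₀ (norm_nonneg _) (norm_nonneg _)).mp h

lemma tendsto_Ng_Z (f : L2) : Tendsto (fun k : ℕ => ‖Ng (Z k f)‖) atTop (𝓝 0) := by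
  rw [Metric.tendsto_atTop]
  intro ε hε
  have hs := (fourierBasis (T := 1)).hasSum_repr f
  obtain ⟨s, hs⟩ := (Metric.tendsto_atTop.mp hs) ε hε
  have hs := hs s le_rfl
  set g : L2 := ∑ b ∈ s, (fourierBasis (T := 1)).repr f b • (fourierBasis (T := 1)) b with hg
  refine ⟨s.sup (fun b => b.natAbs), fun k hk => ?_⟩
  have hgm : Z k g ∈ hardy := by
    rw [hg, map_sum]
    apply Submodule.sum_mem
    intro b hb
    rw [map_smul]
    apply Submodule.smul_mem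
    have : (fourierBasis (T := 1)) b = e b := by simp [e]
    rw [this, Z_e]
    apply e_mem
    have : b.natAbs ≤ k := le_trans (Finset.le_sup (f := fun b : ℤ => b.natAbs) hb) hk
    omega
  have : Ng (Z k f) = Ng (Z k (f - g)) := by rw [map_sub, map_sub, Ng_eq hgm, sub_zero]
  rw [dist_zero_right, norm_norm, this]
  calc _ ≤ ‖Z k (f - g)‖ := norm_Ng_le _
    _ = ‖f - g‖ := norm_Z _ _
    _ < ε := by rw [dist_eq_norm, norm_sub_rev] at hs; exact hs

/-- An operator commuting with the shifts whose compression to H^2 vanishes is zero. -/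
lemma op_eq_zero (R : L2 →L[ℂ] L2) (hZ : ∀ k f, R (Z k f) = Z k (R f))
    (h : ∀ f ∈ hardy, ∀ g ∈ hardy, ⟪f, R g⟫_ℂ = 0) : ∀ f, R f = 0 := by
  have h1 : ∀ j, R (e j) = 0 := by
    intro j
    apply ext_c; intro i
    rw [c_zero]
    have := h (e ((i.natAbs + j.natAbs : ℕ) + i)) (e_mem (by omega))
      (e ((i.natAbs + j.natAbs : ℕ) + j)) (e_mem (by omega))
    rw [← Z_e, ← Z_e, hZ, inner_Z_Z] at this
    exact this
  intro f
  have hs := ((fourierBasis (T := 1)).hasSum_repr f).mapL R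
  have : ∀ b, R ((fourierBasis (T := 1)).repr f b • (fourierBasis (T := 1)) b) = 0 := by
    intro b
    have : (fourierBasis (T := 1)) b = e b := by simp [e]
    rw [map_smul, this, h1, smul_zero]
  simp only [this] at hs
  exact hs.unique hasSum_zero

lemma c_M_poly {n : ℕ} {φ : Linf} {a : ℕ → ℂ}
    (h : φ =ᵐ[μ0] fun x => ∑ k ∈ Finset.range (n + 1), a k * fourier (-(k : ℤ)) x) (j : ℤ) (f : L2) :
    c j (mulOp φ f) = ∑ k ∈ Finset.range (n + 1), a k * c (j + k) f := by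
  have : mulOp φ f = ∑ k ∈ Finset.range (n + 1), a k • Z (-(k : ℤ)) f := by
    apply Lp.ext
    have h2 := Lp.coeFn_finsetSum (Finset.range (n + 1)) (fun k => a k • Z (-(k : ℤ)) f)
    have h3 : ∀ᵐ x ∂μ0, ∀ k : ℕ, (a k • Z (-(k : ℤ)) f : L2) x = a k * (fourier (-(k : ℤ)) x * f x) := by
      rw [ae_all_iff]; intro k
      filter_upwards [Lp.coeFn_smul (a k) (Z (-(k : ℤ)) f), coeFn_Z (-(k : ℤ)) f] with x h1 h2
      rw [h1, Pi.smul_apply, h2, smul_eq_mul]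
    filter_upwards [coeFn_M φ f, h, h2, h3] with x h1 h4 h5 h6
    rw [h1, h4, h5, Finset.sum_mul, Finset.sum_apply]
    apply Finset.sum_congr rfl
    intro k _
    rw [h6]; ring
  rw [this, c_sum]
  apply Finset.sum_congr rfl
  intro k _
  rw [c_smul, c_Z, sub_neg_eq_add]

lemma c_M_star (φ : Linf) (j : ℤ) (f : L2) :
    c j (mulOp (star φ) f) = conj (c (-j) (mulOp φ (star f))) := by
  rw [← c_star, star_M, star_star]

lemma isTrigPoly_of {n : ℕ} {φ : Linf}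
    (h1 : ∀ k : ℤ, (n : ℤ) < k → c (-k) (mulOp φ (e 0)) = 0)
    (h2 : ∀ k : ℤ, (n : ℤ) < k → c (-k) (mulOp (star φ) (e 0)) = 0) : IsTrigPoly n φ := by
  refine ⟨fun k => c k (mulOp φ (e 0)), ?_⟩
  have key : mulOp φ (e 0) = ∑ k ∈ Finset.Icc (-(n : ℤ)) n, c k (mulOp φ (e 0)) • e k := by
    apply ext_c; intro j
    rw [c_sum]
    simp only [c_smul, c_e, mul_ite, mul_one, mul_zero]
    rw [Finset.sum_ite_eq]
    split_ifs with hj
    · rfl
    · rw [Finset.mem_Icc] at hj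
      by_cases hj2 : j < 0
      · have := h1 (-j) (by omega); rwa [neg_neg] at this
      · have := h2 j (by omega)
        rw [c_M_star, neg_neg, star_e, neg_zero] at this
        simpa using this
  have h2 := Lp.coeFn_finsetSum (Finset.Icc (-(n : ℤ)) n) (fun k => c k (mulOp φ (e 0)) • e k)
  have h3 : ∀ᵐ x ∂μ0, ∀ k : ℤ, (c k (mulOp φ (e 0)) • e k : L2) x
      = c k (mulOp φ (e 0)) * fourier k x := by
    rw [ae_all_iff]; intro k
    filter_upwards [Lp.coeFn_smul (c k (mulOp φ (e 0))) (e k), coeFn_fourierLp (T := 1) 2 k]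
      with x h1 h2
    rw [h1, Pi.smul_apply, e, e, h2, smul_eq_mul]
  rw [← key] at h2
  filter_upwards [coeFn_M φ (e 0), coeFn_fourierLp (T := 1) 2 0, h2, h3] with x h4 h5 h6 h7
  have : (mulOp φ (e 0)) x = φ x := by rw [h4, e, h5]; simp
  rw [← this, h6, Finset.sum_apply]
  exact Finset.sum_congr rfl fun k _ => h7 k

end

end Pool.Agent.MP_0ce33b_an

end

-- part MP_0ce33b_an.Sub
section

namespace Pool.Agent.MP_0ce33b_an

open MeasureTheory
open scoped InnerProductSpace ComplexConjugate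

noncomputable section

universe u

lemma subnormal_facts {T T' : H2sum →L[ℂ] H2sum} (hT : IsSubnormal.{u} T)
    (hadj : ∀ x y, ⟪T' x, y⟫_ℂ = ⟪x, T y⟫_ℂ) :
    (∀ x, ‖T' x‖ ≤ ‖T x‖) ∧
      ∀ x, ‖T' x‖ = ‖T x‖ → ∀ y, ⟪T (T x), T y⟫_ℂ = ⟪T' (T x), T' y⟫_ℂ := by
  obtain ⟨K, _, _, _, ι, N, hN, hι⟩ := hT
  have hcomm : ∀ k, (ContinuousLinearMap.adjoint N) (N k) = N ((ContinuousLinearMap.adjoint N) k) := by
    intro k
    have := hN.star_comm_self.eq
    rw [ContinuousLinearMap.star_eq_adjoint] at this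
    exact congrArg (fun A : K →L[ℂ] K => A k) this
  have hNN : ∀ k l, ⟪N k, N l⟫_ℂ = ⟪(ContinuousLinearMap.adjoint N) k,
      (ContinuousLinearMap.adjoint N) l⟫_ℂ := by
    intro k l
    rw [← ContinuousLinearMap.adjoint_inner_left, hcomm, ContinuousLinearMap.adjoint_inner_right]
  have hnorm : ∀ k, ‖(ContinuousLinearMap.adjoint N) k‖ = ‖N k‖ := by
    intro k
    have := hNN k k
    rw [inner_self_eq_norm_sq_to_K, inner_self_eq_norm_sq_to_K] at this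
    have h : ‖N k‖ ^ 2 = ‖(ContinuousLinearMap.adjoint N) k‖ ^ 2 := by exact_mod_cast this
    exact ((sq_eq_sq₀ (norm_nonneg _) (norm_nonneg _)).mp h).symm
  have h1 : ∀ x y, ⟪(ContinuousLinearMap.adjoint N) (ι x), ι y⟫_ℂ = ⟪T' x, y⟫_ℂ := by
    intro x y
    rw [ContinuousLinearMap.adjoint_inner_left, hι, ι.inner_map_map, hadj]
  have h2 : ∀ x, ‖T x‖ ^ 2 = ‖T' x‖ ^ 2 +
      ‖(ContinuousLinearMap.adjoint N) (ι x) - ι (T' x)‖ ^ 2 := by
    intro x
    have ho : ⟪ι (T' x), (ContinuousLinearMap.adjoint N) (ι x) - ι (T' x)⟫_ℂ = 0 := by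
      rw [← inner_conj_symm, inner_sub_left, h1, ι.inner_map_map, sub_self, map_zero]
    have := norm_add_sq_eq_norm_sq_add_norm_sq_of_inner_eq_zero _ _ ho
    rw [add_sub_cancel, hnorm, hι, ι.norm_map, ι.norm_map] at this
    nlinarith
  refine ⟨fun x => ?_, fun x hx y => ?_⟩
  · have := h2 x
    nlinarith [norm_nonneg (T x), norm_nonneg (T' x),
      sq_nonneg ‖(ContinuousLinearMap.adjoint N) (ι x) - ι (T' x)‖]
  · have h3 := h2 x
    rw [hx] at h3
    have h4 : (ContinuousLinearMap.adjoint N) (ι x) = ι (T' x) := by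
      have : ‖(ContinuousLinearMap.adjoint N) (ι x) - ι (T' x)‖ ^ 2 = 0 := by linarith
      rwa [sq_eq_zero_iff, norm_eq_zero, sub_eq_zero] at this
    have h5 : (ContinuousLinearMap.adjoint N) (ι (T x)) = ι (T (T' x)) := by
      rw [← hι, hcomm, h4, hι]
    have h6 : T' (T x) = T (T' x) := by
      apply ext_inner_right ℂ
      intro z
      rw [← h1, h5, ι.inner_map_map]
    rw [← ι.inner_map_map, ← hι, ← hι y, hNN, h5, h6, ← inner_conj_symm, h1, inner_conj_symm]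

def row (φ ψ : Linf) (f g : L2) : L2 := mulOp φ f + mulOp ψ g

lemma block_fst (Φ α β Ψ : Linf) (x : H2sum) :
    ((blockToeplitz Φ α β Ψ x).fst : L2) = P (row Φ α x.fst x.snd) := by
  simp [blockToeplitz, toeplitz, row, P]

lemma block_snd (Φ α β Ψ : Linf) (x : H2sum) :
    ((blockToeplitz Φ α β Ψ x).snd : L2) = P (row β Ψ x.fst x.snd) := by
  simp [blockToeplitz, toeplitz, row, P]

lemma inner_H2 (x y : H2sum) :
    ⟪x, y⟫_ℂ = ⟪(x.fst : L2), (y.fst : L2)⟫_ℂ + ⟪(x.snd : L2), (y.snd : L2)⟫_ℂ := by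
  rw [WithLp.prod_inner_apply]; rfl

lemma norm_H2 (x : H2sum) : ‖x‖ ^ 2 = ‖(x.fst : L2)‖ ^ 2 + ‖(x.snd : L2)‖ ^ 2 := by
  rw [WithLp.prod_norm_sq_eq_of_L2]; rfl

lemma inner_P_left (f : L2) {g : L2} (hg : g ∈ hardy) : ⟪P f, g⟫_ℂ = ⟪f, g⟫_ℂ := by
  have := inner_Ng_mem f hg
  rw [Ng_apply, inner_sub_left, sub_eq_zero] at this
  exact this.symm

lemma inner_P_right {f : L2} (hf : f ∈ hardy) (g : L2) : ⟪f, P g⟫_ℂ = ⟪f, g⟫_ℂ := by
  rw [← inner_conj_symm, inner_P_left g hf, inner_conj_symm]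

lemma block_adj (Φ α β Ψ : Linf) (x y : H2sum) :
    ⟪blockToeplitz (star Φ) (star β) (star α) (star Ψ) x, y⟫_ℂ
      = ⟪x, blockToeplitz Φ α β Ψ y⟫_ℂ := by
  rw [inner_H2, inner_H2, block_fst, block_snd, block_fst, block_snd,
    inner_P_left _ y.fst.2, inner_P_left _ y.snd.2, inner_P_right x.fst.2, inner_P_right x.snd.2]
  simp only [row, inner_add_left, inner_add_right, inner_M']
  ring

/-- hyponormality in components -/
def Hyp (Φ α β Ψ : Linf) : Prop :=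
  ∀ f ∈ hardy, ∀ g ∈ hardy,
    ‖P (row (star Φ) (star β) f g)‖ ^ 2 + ‖P (row (star α) (star Ψ) f g)‖ ^ 2
      ≤ ‖P (row Φ α f g)‖ ^ 2 + ‖P (row β Ψ f g)‖ ^ 2

/-- invariance of the kernel of the self-commutator, in components -/
def Inv (Φ α β Ψ : Linf) : Prop :=
  ∀ f ∈ hardy, ∀ g ∈ hardy,
    ‖P (row (star Φ) (star β) f g)‖ ^ 2 + ‖P (row (star α) (star Ψ) f g)‖ ^ 2
      = ‖P (row Φ α f g)‖ ^ 2 + ‖P (row β Ψ f g)‖ ^ 2 →
    ∀ v ∈ hardy, ∀ w ∈ hardy,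
      ⟪P (row Φ α (P (row Φ α f g)) (P (row β Ψ f g))), P (row Φ α v w)⟫_ℂ
        + ⟪P (row β Ψ (P (row Φ α f g)) (P (row β Ψ f g))), P (row β Ψ v w)⟫_ℂ
      = ⟪P (row (star Φ) (star β) (P (row Φ α f g)) (P (row β Ψ f g))),
          P (row (star Φ) (star β) v w)⟫_ℂ
        + ⟪P (row (star α) (star Ψ) (P (row Φ α f g)) (P (row β Ψ f g))),
          P (row (star α) (star Ψ) v w)⟫_ℂ

lemma hyp_inv {Φ α β Ψ : Linf} (h : IsSubnormal.{u} (blockToeplitz Φ α β Ψ)) :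
    Hyp Φ α β Ψ ∧ Inv Φ α β Ψ := by
  obtain ⟨h1, h2⟩ := subnormal_facts h (block_adj Φ α β Ψ)
  constructor
  · intro f hf g hg
    have := h1 (WithLp.toLp 2 (⟨f, hf⟩, ⟨g, hg⟩))
    have h3 := pow_le_pow_left₀ (norm_nonneg _) this 2
    rw [norm_H2, norm_H2, block_fst, block_snd, block_fst, block_snd] at h3
    exact h3
  · intro f hf g hg he v hv w hw
    have h3 := h2 (WithLp.toLp 2 (⟨f, hf⟩, ⟨g, hg⟩)) (by
      apply (sq_eq_sq₀ (norm_nonneg _) (norm_nonneg _)).mp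
      rw [norm_H2, norm_H2, block_fst, block_snd, block_fst, block_snd]
      exact he) (WithLp.toLp 2 (⟨v, hv⟩, ⟨w, hw⟩))
    rw [inner_H2, inner_H2] at h3
    simp only [block_fst, block_snd] at h3
    exact h3

end

end Pool.Agent.MP_0ce33b_an

end

-- part MP_0ce33b_an.Hypo
section

namespace Pool.Agent.MP_0ce33b_an

open MeasureTheory Filter Topology
open scoped InnerProductSpace ComplexConjugate

noncomputable section

lemma eq_zero_of_re_le {z : ℂ} {C : ℝ} (h : ∀ t : ℂ, (t * z).re ≤ C) : z = 0 := by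
  by_contra hz
  have hp : 0 < Complex.normSq z := Complex.normSq_pos.mpr hz
  have := h (((|C| + 1) / Complex.normSq z : ℝ) * conj z)
  rw [mul_assoc, mul_comm (conj z) z, Complex.mul_conj, ← Complex.ofReal_mul, Complex.ofReal_re,
    div_mul_cancel₀ _ hp.ne'] at this
  linarith [le_abs_self C]

lemma row_Z (φ ψ : Linf) (k : ℤ) (f g : L2) : row φ ψ (Z k f) (Z k g) = Z k (row φ ψ f g) := by
  simp only [row, map_add, Z_M]

lemma row_left (φ ψ : Linf) (f : L2) : row φ ψ f 0 = mulOp φ f := by simp [row]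

lemma row_right (φ ψ : Linf) (g : L2) : row φ ψ 0 g = mulOp ψ g := by simp [row]

lemma inner_M_M_star (φ : Linf) (f g : L2) :
    ⟪mulOp (star φ) f, mulOp (star φ) g⟫_ℂ = ⟪mulOp φ f, mulOp φ g⟫_ℂ := by
  rw [inner_M', inner_M, M_comm]

lemma norm_M_star (φ : Linf) (f : L2) : ‖mulOp (star φ) f‖ ^ 2 = ‖mulOp φ f‖ ^ 2 := by
  have := inner_M_M_star φ f f
  rw [inner_self_eq_norm_sq_to_K, inner_self_eq_norm_sq_to_K] at this
  exact_mod_cast this

lemma tendsto_P_Z (f : L2) : Tendsto (fun k : ℕ => ‖P (Z k f)‖ ^ 2) atTop (𝓝 (‖f‖ ^ 2)) := by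
  have h : ∀ k : ℕ, ‖P (Z k f)‖ ^ 2 = ‖f‖ ^ 2 - ‖Ng (Z k f)‖ ^ 2 := by
    intro k
    have := norm_split (Z k f)
    rw [norm_Z] at this; linarith
  simp only [h]
  have := ((tendsto_Ng_Z f).pow 2).const_sub (‖f‖ ^ 2)
  simpa using this

variable {Φ α β Ψ : Linf}

lemma Hyp.lim (h : Hyp Φ α β Ψ) {f g : L2} (hf : f ∈ hardy) (hg : g ∈ hardy) :
    ‖row (star Φ) (star β) f g‖ ^ 2 + ‖row (star α) (star Ψ) f g‖ ^ 2
      ≤ ‖row Φ α f g‖ ^ 2 + ‖row β Ψ f g‖ ^ 2 := by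
  refine le_of_tendsto_of_tendsto' ((tendsto_P_Z _).add (tendsto_P_Z _))
    ((tendsto_P_Z _).add (tendsto_P_Z _)) fun k => ?_
  have := h _ (Z_mem (Int.natCast_nonneg k) hf) _ (Z_mem (Int.natCast_nonneg k) hg)
  simpa only [row_Z] using this

lemma Hyp.norm_eq (h : Hyp Φ α β Ψ) {f : L2} (hf : f ∈ hardy) :
    ‖mulOp α f‖ ^ 2 = ‖mulOp β f‖ ^ 2 := by
  have h1 := h.lim hf (Submodule.zero_mem _)
  have h2 := h.lim (Submodule.zero_mem _) hf
  simp only [row_left, row_right, norm_M_star] at h1 h2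
  linarith

lemma Hyp.normal1 (h : Hyp Φ α β Ψ) (f : L2) :
    mulOp (star α) (mulOp α f) = mulOp (star β) (mulOp β f) := by
  set R : L2 →L[ℂ] L2 := mulOp (star α) ∘L mulOp α - mulOp (star β) ∘L mulOp β with hR
  have hRa : ∀ f, R f = mulOp (star α) (mulOp α f) - mulOp (star β) (mulOp β f) := fun f => rfl
  have hq : ∀ f ∈ hardy, ⟪f, R f⟫_ℂ = 0 := by
    intro f hf
    rw [hRa, inner_sub_right, ← inner_M, ← inner_M, inner_self_eq_norm_sq_to_K,
      inner_self_eq_norm_sq_to_K, sub_eq_zero]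
    exact_mod_cast h.norm_eq hf
  have := op_eq_zero R (by intro k f; rw [hRa, hRa, map_sub, Z_M, Z_M, Z_M, Z_M]) (by
    intro f hf g hg
    have h1 := hq _ (Submodule.add_mem _ hf hg)
    have h2 := hq _ (Submodule.add_mem _ hf (Submodule.smul_mem _ Complex.I hg))
    simp only [map_add, map_smul, inner_add_left, inner_add_right, inner_smul_left,
      inner_smul_right, hq f hf, hq g hg, Complex.conj_I] at h1 h2
    have h3 : Complex.I * (⟪f, R g⟫_ℂ - ⟪g, R f⟫_ℂ) = 0 := by linear_combination h2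
    rcases mul_eq_zero.mp h3 with h4 | h4
    · exact absurd h4 Complex.I_ne_zero
    · linear_combination (h1 + h4) / 2) f
  rwa [hRa, sub_eq_zero] at this

lemma Hyp.normal2 (h : Hyp Φ α β Ψ) (f : L2) :
    mulOp (star Φ) (mulOp α f) + mulOp (star β) (mulOp Ψ f)
      = mulOp Φ (mulOp (star β) f) + mulOp α (mulOp (star Ψ) f) := by
  set R : L2 →L[ℂ] L2 := (mulOp Φ ∘L mulOp (star β) + mulOp α ∘L mulOp (star Ψ))
    - (mulOp (star Φ) ∘L mulOp α + mulOp (star β) ∘L mulOp Ψ) with hR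
  have hRa : ∀ f, R f = (mulOp Φ (mulOp (star β) f) + mulOp α (mulOp (star Ψ) f))
    - (mulOp (star Φ) (mulOp α f) + mulOp (star β) (mulOp Ψ f)) := fun f => rfl
  have hq : ∀ f ∈ hardy, ∀ g ∈ hardy, (⟪f, R g⟫_ℂ).re ≤ 0 := by
    intro f hf g hg
    have h1 := h.lim hf hg
    simp only [row, norm_add_sq (𝕜 := ℂ), norm_M_star, h.norm_eq hf, h.norm_eq hg] at h1
    rw [hRa, inner_sub_right, inner_add_right, inner_add_right, ← inner_M' Φ, ← inner_M' α,
      ← inner_M Φ, ← inner_M β f]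
    simp only [Complex.sub_re, Complex.add_re]
    simp only [RCLike.re_to_complex] at h1
    linarith
  have := op_eq_zero R (by intro k f; simp only [hRa, map_sub, map_add, Z_M]) (by
    intro f hf g hg
    apply eq_zero_of_re_le (C := 0)
    intro t
    have := hq f hf _ (Submodule.smul_mem _ t hg)
    rwa [map_smul, inner_smul_right] at this) f
  rw [hRa, sub_eq_zero] at this
  exact this.symm

lemma Hyp.inner_eq (h : Hyp Φ α β Ψ) (f g v w : L2) :
    ⟪row Φ α f g, row Φ α v w⟫_ℂ + ⟪row β Ψ f g, row β Ψ v w⟫_ℂ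
      = ⟪row (star Φ) (star β) f g, row (star Φ) (star β) v w⟫_ℂ
        + ⟪row (star α) (star Ψ) f g, row (star α) (star Ψ) v w⟫_ℂ := by
  have h1 : ∀ f g, ⟪mulOp α f, mulOp α g⟫_ℂ = ⟪mulOp β f, mulOp β g⟫_ℂ := by
    intro f g; rw [inner_M, inner_M, h.normal1]
  have h2 : ∀ f g, ⟪mulOp Φ f, mulOp α g⟫_ℂ + ⟪mulOp β f, mulOp Ψ g⟫_ℂ
      = ⟪mulOp (star Φ) f, mulOp (star β) g⟫_ℂ + ⟪mulOp (star α) f, mulOp (star Ψ) g⟫_ℂ := by
    intro f g
    rw [inner_M, inner_M, inner_M', inner_M', ← inner_add_right, ← inner_add_right, h.normal2]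
  have h3 : ∀ f g, ⟪mulOp α g, mulOp Φ f⟫_ℂ + ⟪mulOp Ψ g, mulOp β f⟫_ℂ
      = ⟪mulOp (star β) g, mulOp (star Φ) f⟫_ℂ + ⟪mulOp (star Ψ) g, mulOp (star α) f⟫_ℂ := by
    intro f g
    have := congrArg conj (h2 f g)
    simpa only [map_add, inner_conj_symm] using this
  simp only [row, inner_add_left, inner_add_right, inner_M_M_star]
  linear_combination h2 f w + h3 v g + h1 g w - h1 f v

lemma Hyp.ng (h : Hyp Φ α β Ψ) {f g : L2} (hf : f ∈ hardy) (hg : g ∈ hardy) :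
    ‖Ng (row Φ α f g)‖ ^ 2 + ‖Ng (row β Ψ f g)‖ ^ 2
      ≤ ‖Ng (row (star Φ) (star β) f g)‖ ^ 2 + ‖Ng (row (star α) (star Ψ) f g)‖ ^ 2 := by
  have h1 := h f hf g hg
  have h2 := h.inner_eq f g f g
  simp only [inner_self_eq_norm_sq_to_K] at h2
  have h3 : ‖row Φ α f g‖ ^ 2 + ‖row β Ψ f g‖ ^ 2
      = ‖row (star Φ) (star β) f g‖ ^ 2 + ‖row (star α) (star Ψ) f g‖ ^ 2 := by exact_mod_cast h2
  rw [norm_split (row Φ α f g), norm_split (row β Ψ f g), norm_split (row (star Φ) (star β) f g),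
    norm_split (row (star α) (star Ψ) f g)] at h3
  linarith

lemma exists_repr {E : Type} [AddCommGroup E] [Module ℂ E] (A : E →ₗ[ℂ] L2) (l : E →ₗ[ℂ] ℂ)
    (h : ∀ x, ‖l x‖ ≤ ‖A x‖) : ∃ u : L2, ∀ x, l x = ⟪u, A x⟫_ℂ := by
  have hker : LinearMap.ker A ≤ LinearMap.ker l := by
    intro x hx
    rw [LinearMap.mem_ker] at *
    have := h x
    rw [hx, norm_zero] at this
    exact norm_le_zero_iff.mp this
  let l2 : LinearMap.range A →ₗ[ℂ] ℂ :=
    ((LinearMap.ker A).liftQ l hker) ∘ₗ A.quotKerEquivRange.symm.toLinearMap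
  have hl2 : ∀ x, l2 ⟨A x, LinearMap.mem_range_self A x⟩ = l x := by
    intro x
    simp [l2, LinearMap.quotKerEquivRange_symm_apply_image]
  have hb : ∀ y : LinearMap.range A, ‖l2 y‖ ≤ 1 * ‖y‖ := by
    rintro ⟨y, x, rfl⟩
    rw [hl2, one_mul]; exact h x
  obtain ⟨g, hg, -⟩ := exists_extension_norm_eq (LinearMap.range A) (l2.mkContinuous 1 hb)
  refine ⟨(InnerProductSpace.toDual ℂ L2).symm g, fun x => ?_⟩
  rw [InnerProductSpace.toDual_symm_apply, ← hl2]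
  exact (hg ⟨A x, LinearMap.mem_range_self A x⟩).symm

lemma norm_c_le (k : ℤ) (f : L2) : ‖c k f‖ ≤ ‖f‖ := by
  have h1 : ‖e k‖ = 1 := (orthonormal_fourier (T := 1)).1 k
  have := norm_inner_le_norm (𝕜 := ℂ) (e k) f
  rwa [h1, one_mul] at this

/-- operator form of a co-analytic polynomial -/
def Co (n : ℕ) (φ : Linf) (a : ℕ → ℂ) : Prop :=
  ∀ j f, c j (mulOp φ f) = ∑ k ∈ Finset.range (n + 1), a k * c (j + k) f

variable {n : ℕ} {φ : Linf} {a : ℕ → ℂ}

lemma Co.top (h : Co n φ a) {f : L2} (hf : f ∈ hardy) : c (-n) (mulOp φ f) = a n * c 0 f := by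
  rw [h, Finset.sum_range_succ, Finset.sum_eq_zero]
  · simp
  · intro k hk
    rw [mem_hardy.mp hf _ (by have := Finset.mem_range.mp hk; omega), mul_zero]

lemma Co.star_mem (h : Co n φ a) {f : L2} (hf : f ∈ hardy) : mulOp (star φ) f ∈ hardy := by
  rw [mem_hardy]
  intro j hj
  rw [c_M_star, h, Finset.sum_eq_zero, map_zero]
  intro k _
  rw [c_star, mem_hardy.mp hf _ (by omega)]; simp

lemma Co.e_mem (h : Co n φ a) {j : ℤ} (hj : (n : ℤ) ≤ j) : mulOp φ (e j) ∈ hardy := by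
  rw [mem_hardy]
  intro i hi
  rw [h, Finset.sum_eq_zero]
  intro k hk
  rw [c_e, if_neg (by have := Finset.mem_range.mp hk; omega), mul_zero]

lemma Co.Ng_e (h : Co n φ a) : Ng (mulOp φ (e (n - 1))) = a n • e (-1) := by
  rw [Ng_shift, Z_M, Z_e, Ng_eq (h.e_mem (by omega)), map_zero, zero_add]
  congr 1
  have := h.top (Pool.Agent.MP_0ce33b_an.e_mem le_rfl)
  rw [c_e, if_pos rfl, mul_one] at this
  have h2 : e ((n : ℤ) - 1) = Z (n - 1) (e 0) := by rw [Z_e, add_zero]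
  rw [h2, ← Z_M, c_Z, ← this]
  congr 1; ring

lemma exists_ker (h : Co n φ a) (hn : 1 ≤ n) (ha : a n ≠ 0) (ψ : Linf)
    (hle : ∀ f ∈ hardy, ‖Ng (mulOp φ f)‖ ≤ ‖Ng (mulOp ψ f)‖) :
    ∃ g ∈ hardy, mulOp ψ g ∈ hardy ∧ c 0 (mulOp ψ g) ≠ 0 := by
  let A : hardy →ₗ[ℂ] L2 := (Ng ∘L mulOp ψ ∘L hardy.subtypeL).toLinearMap
  let l : hardy →ₗ[ℂ] ℂ := (innerSL ℂ (e (-n)) ∘L mulOp φ ∘L hardy.subtypeL).toLinearMap
  obtain ⟨u, hu⟩ := exists_repr A l (by
    intro x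
    have h1 : l x = c (-n) (Ng (mulOp φ x)) := by rw [c_Ng, if_pos (by omega)]; rfl
    rw [h1]
    exact (norm_c_le _ _).trans (hle x x.2))
  have h2 : ∀ f ∈ hardy, a n * c 0 f = ⟪mulOp (star ψ) (Ng u), f⟫_ℂ := by
    intro f hf
    rw [inner_M', ← inner_Ng_left, ← h.top hf]
    have := hu ⟨f, hf⟩
    have h3 : ⟪u, Ng (mulOp ψ f)⟫_ℂ = ⟪Ng u, Ng (mulOp ψ f)⟫_ℂ := by
      rw [← inner_conj_symm, ← inner_Ng_left, inner_conj_symm]
    rw [← h3]
    exact this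
  have h4 : ∀ j : ℤ, 0 ≤ j → c (-j) (mulOp ψ (star (Ng u))) = a n * c 0 (e j) := by
    intro j hj
    have : mulOp ψ (star (Ng u)) = star (mulOp (star ψ) (Ng u)) := by rw [star_M, star_star]
    rw [this, c_star, neg_neg, h2 _ (e_mem hj), c, inner_conj_symm]
  refine ⟨star (Ng u), ?_, ?_, ?_⟩
  · rw [mem_hardy]; intro k hk
    rw [c_star, c_Ng, if_neg (by omega), map_zero]
  · rw [mem_hardy]; intro k hk
    have := h4 (-k) (by omega)
    rw [neg_neg, c_e, if_neg (by omega), mul_zero] at this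
    exact this
  · have := h4 0 le_rfl
    rw [neg_zero, c_e, if_pos rfl, mul_one] at this
    rwa [this]

end

end Pool.Agent.MP_0ce33b_an

end

-- part MP_0ce33b_an.Diag
section

namespace Pool.Agent.MP_0ce33b_an

open MeasureTheory Filter Topology
open scoped InnerProductSpace ComplexConjugate

noncomputable section

variable {Φ α β Ψ : Linf} {n : ℕ} {a b : ℕ → ℂ}

lemma Hyp.left (h : Hyp Φ α β Ψ) (hΦ : Co n Φ a) {f : L2} (hf : f ∈ hardy) :
    ‖Ng (mulOp Φ f)‖ ^ 2 + ‖Ng (mulOp β f)‖ ^ 2 ≤ ‖Ng (mulOp (star α) f)‖ ^ 2 := by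
  have := h.ng hf (Submodule.zero_mem _)
  simp only [row_left] at this
  rw [Ng_eq (hΦ.star_mem hf)] at this
  simpa using this

lemma Hyp.right (h : Hyp Φ α β Ψ) (hΨ : Co n Ψ b) {g : L2} (hg : g ∈ hardy) :
    ‖Ng (mulOp α g)‖ ^ 2 + ‖Ng (mulOp Ψ g)‖ ^ 2 ≤ ‖Ng (mulOp (star β) g)‖ ^ 2 := by
  have := h.ng (Submodule.zero_mem _) hg
  simp only [row_right] at this
  rw [Ng_eq (hΨ.star_mem hg)] at this
  simpa using this

lemma Hyp.left_mem (h : Hyp Φ α β Ψ) (hΦ : Co n Φ a) {f : L2} (hf : f ∈ hardy)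
    (h1 : mulOp (star α) f ∈ hardy) : mulOp Φ f ∈ hardy ∧ mulOp β f ∈ hardy := by
  have := h.left hΦ hf
  rw [Ng_eq h1, norm_zero] at this
  constructor <;> apply mem_of_Ng <;> rw [← norm_eq_zero] <;>
    nlinarith [sq_nonneg ‖Ng (mulOp Φ f)‖, sq_nonneg ‖Ng (mulOp β f)‖]

lemma Hyp.right_mem (h : Hyp Φ α β Ψ) (hΨ : Co n Ψ b) {g : L2} (hg : g ∈ hardy)
    (h1 : mulOp (star β) g ∈ hardy) : mulOp α g ∈ hardy ∧ mulOp Ψ g ∈ hardy := by
  have := h.right hΨ hg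
  rw [Ng_eq h1, norm_zero] at this
  constructor <;> apply mem_of_Ng <;> rw [← norm_eq_zero] <;>
    nlinarith [sq_nonneg ‖Ng (mulOp α g)‖, sq_nonneg ‖Ng (mulOp Ψ g)‖]

lemma Hyp.ker_left (h : Hyp Φ α β Ψ) (hΦ : Co n Φ a) (hn : 1 ≤ n) (ha : a n ≠ 0) :
    ∃ g ∈ hardy, mulOp (star α) g ∈ hardy ∧ c 0 (mulOp (star α) g) ≠ 0 := by
  apply exists_ker hΦ hn ha
  intro f hf
  have := h.left hΦ hf
  apply (pow_le_pow_iff_left₀ (norm_nonneg _) (norm_nonneg _) two_ne_zero).mp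
  nlinarith [sq_nonneg ‖Ng (mulOp β f)‖]

lemma Hyp.ker_right (h : Hyp Φ α β Ψ) (hΨ : Co n Ψ b) (hn : 1 ≤ n) (hb : b n ≠ 0) :
    ∃ g ∈ hardy, mulOp (star β) g ∈ hardy ∧ c 0 (mulOp (star β) g) ≠ 0 := by
  apply exists_ker hΨ hn hb
  intro f hf
  have := h.right hΨ hf
  apply (pow_le_pow_iff_left₀ (norm_nonneg _) (norm_nonneg _) two_ne_zero).mp
  nlinarith [sq_nonneg ‖Ng (mulOp α f)‖]

lemma Hyp.coef_pos (h : Hyp Φ α β Ψ) (hΦ : Co n Φ a) (hΨ : Co n Ψ b) (hn : 1 ≤ n)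
    (hb : b n ≠ 0) : ∀ m, 1 ≤ m → m ≤ n → a m = b m := by
  obtain ⟨g, hg, hg1, hg2⟩ := h.ker_right hΨ hn hb
  have hα := (h.right_mem hΨ hg hg1).1
  have key : mulOp Φ (mulOp (star β) g) - mulOp Ψ (mulOp (star β) g) ∈ hardy := by
    have h1 := h.normal2 g
    rw [M_comm (star β) Ψ, M_comm α (star Ψ)] at h1
    have : mulOp Φ (mulOp (star β) g) - mulOp Ψ (mulOp (star β) g)
        = mulOp (star Φ) (mulOp α g) - mulOp (star Ψ) (mulOp α g) := by
      rw [sub_eq_sub_iff_add_eq_add]; exact h1.symm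
    rw [this]
    exact Submodule.sub_mem _ (hΦ.star_mem hα) (hΨ.star_mem hα)
  have : ∀ d m, n - m = d → 1 ≤ m → m ≤ n → a m = b m := by
    intro d
    induction d using Nat.strong_induction_on with
    | _ d ih =>
      intro m hd hm1 hm2
      have h1 := mem_hardy.mp key (-m) (by omega)
      rw [c_sub, hΦ, hΨ, ← Finset.sum_sub_distrib,
        Finset.sum_eq_single_of_mem m (Finset.mem_range.mpr (by omega))] at h1
      · rw [neg_add_cancel, ← sub_mul] at h1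
        exact sub_eq_zero.mp ((mul_eq_zero.mp h1).resolve_right hg2)
      · intro k hk hkm
        have hk' := Finset.mem_range.mp hk
        rcases lt_or_gt_of_ne hkm with h2 | h2
        · rw [mem_hardy.mp hg1 _ (by omega)]; simp
        · rw [ih (n - k) (by omega) k rfl (by omega) (by omega), sub_self]
  intro m; exact this _ m rfl

lemma Hyp.coef_eq (h : Hyp Φ α β Ψ) (hΦ : Co n Φ a) (hΨ : Co n Ψ b) (hn : 1 ≤ n)
    (hb : b n ≠ 0) : ∀ m, m ≤ n → a m = b m := by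
  have hpos := h.coef_pos hΦ hΨ hn hb
  intro m hm
  rcases Nat.eq_zero_or_pos m with rfl | h0
  swap
  · exact hpos m h0 hm
  by_contra hd
  have h1 : ∀ f, mulOp Φ f = mulOp Ψ f + (a 0 - b 0) • f := by
    intro f
    apply ext_c; intro j
    rw [c_add, c_smul, hΦ, hΨ, Finset.sum_range_succ', Finset.sum_range_succ']
    have : ∑ k ∈ Finset.range n, a (k + 1) * c (j + ((k + 1 : ℕ) : ℤ)) f
        = ∑ k ∈ Finset.range n, b (k + 1) * c (j + ((k + 1 : ℕ) : ℤ)) f := by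
      apply Finset.sum_congr rfl
      intro k hk
      rw [hpos (k + 1) (by omega) (by have := Finset.mem_range.mp hk; omega)]
    rw [this]; simp only [Nat.cast_zero, add_zero]; ring
  have h2 : ∀ f, mulOp (star Φ) f = mulOp (star Ψ) f + (conj (a 0 - b 0)) • f := by
    intro f
    apply ext_inner_left ℂ
    intro v
    rw [← inner_M, h1, inner_add_left, inner_add_right, inner_smul_left, inner_smul_right, inner_M]
  have h3 : (conj (a 0 - b 0)) • mulOp α (e 0) = (a 0 - b 0) • mulOp (star β) (e 0) := by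
    have h4 := h.normal2 (e 0)
    rw [h1, h2, M_comm (star β) Ψ, M_comm α (star Ψ)] at h4
    have : (conj (a 0 - b 0)) • mulOp α (e 0) - (a 0 - b 0) • mulOp (star β) (e 0) = 0 := by
      rw [← sub_eq_zero] at h4; rw [← h4]; abel
    exact sub_eq_zero.mp this
  have h5 : ‖Ng (mulOp α (e 0))‖ = ‖Ng (mulOp (star β) (e 0))‖ := by
    have := congrArg (fun x => ‖Ng x‖) h3
    simp only [map_smul, norm_smul, RCLike.norm_conj] at this
    exact mul_left_cancel₀ (norm_ne_zero_iff.mpr (sub_ne_zero.mpr hd)) this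
  have h6 := h.right hΨ (e_mem le_rfl)
  rw [h5] at h6
  have h7 : Ng (mulOp Ψ (e 0)) = 0 := by
    rw [← norm_eq_zero]; nlinarith [sq_nonneg ‖Ng (mulOp Ψ (e 0))‖]
  have h8 := mem_hardy.mp (mem_of_Ng h7) (-n) (by omega)
  rw [hΨ.top (e_mem le_rfl), c_e, if_pos rfl, mul_one] at h8
  exact hb h8

lemma algA {x1 x2 y1 y2 p1 p2 q1 q2 : ℂ} (hdet : x1 * y2 - x2 * y1 ≠ 0)
    (h1 : conj x1 * x1 + conj x2 * x2 = conj p1 * p1 + conj p2 * p2)
    (h2 : conj y1 * y1 + conj y2 * y2 = conj q1 * q1 + conj q2 * q2)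
    (h3 : conj x1 * y1 + conj x2 * y2 = conj p1 * q1 + conj p2 * q2) :
    conj p1 * conj q2 - conj p2 * conj q1 ≠ 0 := by
  intro h
  have h4 := congrArg conj h3
  simp only [map_add, map_mul, Complex.conj_conj] at h4
  have h5 : (x1 * y2 - x2 * y1) * conj (x1 * y2 - x2 * y1) = 0 := by
    simp only [map_sub, map_mul]
    linear_combination (conj y1 * y1 + conj y2 * y2) * h1 + (conj p1 * p1 + conj p2 * p2) * h2
      - (x1 * conj y1 + x2 * conj y2) * h3 - (conj p1 * q1 + conj p2 * q2) * h4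
      + (p1 * q2 - p2 * q1) * h
  rcases mul_eq_zero.mp h5 with h6 | h6
  · exact hdet h6
  · exact hdet ((map_eq_zero _).mp h6)

lemma algA2 {x y p1 p2 q1 q2 A B An Bn φ : ℂ} (hφ : φ ≠ 0) (hdet : p1 * q2 - p2 * q1 ≠ 0)
    (h1 : x * A = p2 * B) (h2 : y * A = q2 * B) (h3 : x * An = p1 * φ + p2 * Bn)
    (h4 : y * An = q1 * φ + q2 * Bn) : A = 0 ∧ B = 0 := by
  have hc : x * q2 - y * p2 ≠ 0 := by
    intro hc
    apply mul_ne_zero hφ hdet
    linear_combination An * hc - q2 * h3 + p2 * h4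
  constructor
  · apply (mul_eq_zero.mp (_ : (x * q2 - y * p2) * A = 0)).resolve_left hc
    linear_combination q2 * h1 - p2 * h2
  · apply (mul_eq_zero.mp (_ : (x * q2 - y * p2) * B = 0)).resolve_left hc
    linear_combination y * h1 - x * h2

lemma algB {x1 x2 p1 p2 X Y A B γ κ : ℂ} (hx1 : x1 ≠ 0) (hx2 : x2 ≠ 0) (hA : A ≠ 0) (hB : B ≠ 0)
    (I1 : -x2 * X + x1 * κ = 0) (I2 : -x2 * γ + x1 * Y = 0) (I3 : X * A = B * Y)
    (R1 : conj x2 * A = conj p1 * γ + conj p2 * Y) (R2 : conj x1 * B = conj p1 * X + conj p2 * κ)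
    (hn : conj x1 * x1 + conj x2 * x2 = conj p1 * p1 + conj p2 * p2)
    (test : ∀ l m : ℂ, ‖l * γ + m * X‖ ^ 2 + ‖l * Y + m * κ‖ ^ 2 ≤ ‖m * B‖ ^ 2 + ‖l * A‖ ^ 2) :
    ‖p1‖ = ‖x1‖ ∧ ‖p2‖ = ‖x2‖ := by
  set δ := conj p1 * x1 + conj p2 * x2 with hδ
  have hc1 : conj x1 ≠ 0 := (map_ne_zero _).mpr hx1
  have hc2 : conj x2 ≠ 0 := (map_ne_zero _).mpr hx2
  have e1 : conj x2 * x1 * A = γ * δ := by
    rw [hδ]; linear_combination x1 * R1 + conj p2 * I2
  have e2 : conj x1 * x2 * B = κ * δ := by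
    rw [hδ]; linear_combination x2 * R2 - conj p1 * I1
  have hγδ : γ * δ ≠ 0 := by rw [← e1]; exact mul_ne_zero (mul_ne_zero hc2 hx1) hA
  have hκδ : κ * δ ≠ 0 := by rw [← e2]; exact mul_ne_zero (mul_ne_zero hc1 hx2) hB
  have hγ : γ ≠ 0 := left_ne_zero_of_mul hγδ
  have hκ : κ ≠ 0 := left_ne_zero_of_mul hκδ
  have hδ0 : δ ≠ 0 := right_ne_zero_of_mul hκδ
  have hX : X = x1 * κ / x2 := by field_simp; linear_combination -I1
  have hY : Y = x2 * γ / x1 := by field_simp; linear_combination I2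
  have hA' : A = γ * δ / (conj x2 * x1) := by field_simp; linear_combination e1
  have hB' : B = κ * δ / (conj x1 * x2) := by field_simp; linear_combination e2
  have e3 : conj x1 * x1 = conj x2 * x2 := by
    rw [hX, hY, hA', hB'] at I3
    field_simp at I3
    linear_combination I3
  have hr : ‖x1‖ = ‖x2‖ := by
    rw [Complex.conj_mul', Complex.conj_mul'] at e3
    have : ‖x1‖ ^ 2 = ‖x2‖ ^ 2 := by exact_mod_cast e3
    exact (sq_eq_sq₀ (norm_nonneg _) (norm_nonneg _)).mp this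
  have hn' : ‖x1‖ ^ 2 + ‖x2‖ ^ 2 = ‖p1‖ ^ 2 + ‖p2‖ ^ 2 := by
    simp only [Complex.conj_mul'] at hn
    exact_mod_cast hn
  have ht := test (x1 / γ) (x2 / κ)
  have t1 : x1 / γ * γ + x2 / κ * X = 2 * x1 := by rw [hX]; field_simp; ring
  have t2 : x1 / γ * Y + x2 / κ * κ = 2 * x2 := by rw [hY]; field_simp; ring
  have t3 : x2 / κ * B = δ / conj x1 := by rw [hB']; field_simp
  have t4 : x1 / γ * A = δ / conj x2 := by rw [hA']; field_simp
  rw [t1, t2, t3, t4] at ht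
  simp only [norm_mul, norm_div, RCLike.norm_conj, Complex.norm_ofNat] at ht
  have hδle : ‖δ‖ ≤ (‖p1‖ + ‖p2‖) * ‖x2‖ := by
    calc ‖δ‖ ≤ ‖conj p1 * x1‖ + ‖conj p2 * x2‖ := norm_add_le _ _
      _ = _ := by simp only [norm_mul, RCLike.norm_conj, hr]; ring
  rw [hr] at ht hn' ⊢
  have hr0 : 0 < ‖x2‖ := norm_pos_iff.mpr hx2
  have h5 : ‖δ‖ / ‖x2‖ ≤ ‖p1‖ + ‖p2‖ := by rwa [div_le_iff₀ hr0]
  have h6 : (‖δ‖ / ‖x2‖) ^ 2 ≤ (‖p1‖ + ‖p2‖) ^ 2 := pow_le_pow_left₀ (by positivity) h5 2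
  have h7 : ‖p1‖ = ‖p2‖ := by
    have : (‖p1‖ - ‖p2‖) ^ 2 ≤ 0 := by nlinarith
    have := pow_eq_zero_iff (two_ne_zero) |>.mp (le_antisymm this (sq_nonneg _))
    linarith
  have h8 : ‖p2‖ = ‖x2‖ := by
    rw [h7] at hn'
    exact (sq_eq_sq₀ (norm_nonneg _) (norm_nonneg _)).mp (by linarith)
  exact ⟨h7.trans h8, h8⟩

end

end Pool.Agent.MP_0ce33b_an

end

-- part MP_0ce33b_an.Core
section

namespace Pool.Agent.MP_0ce33b_an

open MeasureTheory Filter Topology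
open scoped InnerProductSpace ComplexConjugate

noncomputable section

universe u

variable {Φ α β : Linf} {n : ℕ} {a : ℕ → ℂ}

def Mem (α β : Linf) (f g : L2) : Prop :=
  f ∈ hardy ∧ g ∈ hardy ∧ mulOp (star α) f ∈ hardy ∧ mulOp (star β) g ∈ hardy

def x1 (Φ α β : Linf) (f g : L2) : ℂ :=
  c (-1) (row (star Φ) (star β) (row Φ α f g) (row β Φ f g))

def x2 (Φ α β : Linf) (f g : L2) : ℂ :=
  c (-1) (row (star α) (star Φ) (row Φ α f g) (row β Φ f g))

def p1 (Φ α β : Linf) (f g : L2) : ℂ := c (-1) (row Φ α (row Φ α f g) (row β Φ f g))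

def p2 (Φ α β : Linf) (f g : L2) : ℂ := c (-1) (row β Φ (row Φ α f g) (row β Φ f g))

lemma Mem.shift {f g : L2} (h : Mem α β f g) {k : ℤ} (hk : 0 ≤ k) : Mem α β (Z k f) (Z k g) := by
  obtain ⟨h1, h2, h3, h4⟩ := h
  refine ⟨Z_mem hk h1, Z_mem hk h2, ?_, ?_⟩
  · rw [← Z_M]; exact Z_mem hk h3
  · rw [← Z_M]; exact Z_mem hk h4

lemma Mem.rows (h : Hyp Φ α β Φ) (hΦ : Co n Φ a) {f g : L2} (hm : Mem α β f g) :
    row Φ α f g ∈ hardy ∧ row β Φ f g ∈ hardy := by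
  obtain ⟨h1, h2, h3, h4⟩ := hm
  obtain ⟨h5, h6⟩ := h.left_mem hΦ h1 h3
  obtain ⟨h7, h8⟩ := h.right_mem hΦ h2 h4
  exact ⟨Submodule.add_mem _ h5 h7, Submodule.add_mem _ h6 h8⟩

lemma Mem.ng (h : Hyp Φ α β Φ) (hi : Inv Φ α β Φ) (hΦ : Co n Φ a) {f g : L2} (hm : Mem α β f g)
    {v w : L2} (hv : v ∈ hardy) (hw : w ∈ hardy) :
    ⟪Ng (row Φ α (row Φ α f g) (row β Φ f g)), Ng (row Φ α v w)⟫_ℂ
        + ⟪Ng (row β Φ (row Φ α f g) (row β Φ f g)), Ng (row β Φ v w)⟫_ℂ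
      = ⟪Ng (row (star Φ) (star β) (row Φ α f g) (row β Φ f g)),
          Ng (row (star Φ) (star β) v w)⟫_ℂ
        + ⟪Ng (row (star α) (star Φ) (row Φ α f g) (row β Φ f g)),
          Ng (row (star α) (star Φ) v w)⟫_ℂ := by
  obtain ⟨r1, r2⟩ := hm.rows h hΦ
  obtain ⟨h1, h2, h3, h4⟩ := hm
  have r3 : row (star Φ) (star β) f g ∈ hardy := Submodule.add_mem _ (hΦ.star_mem h1) h4
  have r4 : row (star α) (star Φ) f g ∈ hardy := Submodule.add_mem _ h3 (hΦ.star_mem h2)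
  have h5 := hi f h1 g h2 (by
    rw [P_eq r1, P_eq r2, P_eq r3, P_eq r4]
    have h2 := h.inner_eq f g f g
    simp only [inner_self_eq_norm_sq_to_K] at h2
    exact_mod_cast h2.symm) v hv w hw
  rw [P_eq r1, P_eq r2] at h5
  have h6 := h.inner_eq (row Φ α f g) (row β Φ f g) v w
  rw [inner_split (row Φ α _ _), inner_split (row β Φ _ _), inner_split (row (star Φ) _ _ _),
    inner_split (row (star α) _ _ _)] at h6
  linear_combination h6 - h5

lemma Mem.star_id (h : Hyp Φ α β Φ) (hi : Inv Φ α β Φ) (hΦ : Co n Φ a) {f g : L2}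
    (hm : Mem α β f g) {v w : L2} (hv : v ∈ hardy) (hw : w ∈ hardy) :
    conj (x1 Φ α β f g) * c (-1) (row (star Φ) (star β) v w)
        + conj (x2 Φ α β f g) * c (-1) (row (star α) (star Φ) v w)
      = conj (p1 Φ α β f g) * c (-1) (row Φ α v w)
        + conj (p2 Φ α β f g) * c (-1) (row β Φ v w) := by
  have h1 := hm.ng h hi hΦ hv hw
  have h2 := (hm.shift zero_le_one).ng h hi hΦ (Z_mem zero_le_one hv) (Z_mem zero_le_one hw)
  simp only [row_Z] at h2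
  rw [inner_Ng_shift (row Φ α _ _), inner_Ng_shift (row β Φ _ _),
    inner_Ng_shift (row (star Φ) _ _ _), inner_Ng_shift (row (star α) _ _ _)] at h1
  simp only [x1, x2, p1, p2]
  linear_combination h2 - h1

lemma Mem.col1 (h : Hyp Φ α β Φ) (hi : Inv Φ α β Φ) (hΦ : Co n Φ a) {f g : L2}
    (hm : Mem α β f g) {v : L2} (hv : v ∈ hardy) :
    conj (x2 Φ α β f g) * c (-1) (mulOp (star α) v)
      = conj (p1 Φ α β f g) * c (-1) (mulOp Φ v) + conj (p2 Φ α β f g) * c (-1) (mulOp β v) := by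
  have := hm.star_id h hi hΦ hv (Submodule.zero_mem _)
  simp only [row_left] at this
  rw [mem_hardy.mp (hΦ.star_mem hv) _ (by omega)] at this
  linear_combination this

lemma Mem.col2 (h : Hyp Φ α β Φ) (hi : Inv Φ α β Φ) (hΦ : Co n Φ a) {f g : L2}
    (hm : Mem α β f g) {v : L2} (hv : v ∈ hardy) :
    conj (x1 Φ α β f g) * c (-1) (mulOp (star β) v)
      = conj (p1 Φ α β f g) * c (-1) (mulOp α v) + conj (p2 Φ α β f g) * c (-1) (mulOp Φ v) := by
  have := hm.star_id h hi hΦ (Submodule.zero_mem _) hv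
  simp only [row_right] at this
  rw [mem_hardy.mp (hΦ.star_mem hv) _ (by omega)] at this
  linear_combination this

lemma c_M_e (φ : Linf) (k : ℤ) : c (-1) (mulOp φ (e (k - 1))) = c (-k) (mulOp φ (e 0)) := by
  have h2 : e (k - 1) = Z (k - 1) (e 0) := by rw [Z_e, add_zero]
  rw [h2, ← Z_M, c_Z]; congr 1; ring

lemma Co.high (hΦ : Co n Φ a) {k : ℤ} (hk : (n : ℤ) < k) : c (-1) (mulOp Φ (e (k - 1))) = 0 :=
  mem_hardy.mp (hΦ.e_mem (by omega)) _ (by omega)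

lemma Co.at_n (hΦ : Co n Φ a) : c (-1) (mulOp Φ (e (n - 1))) = a n := by
  rw [c_M_e, hΦ.top (Pool.Agent.MP_0ce33b_an.e_mem le_rfl), c_e, if_pos rfl, mul_one]

/-- the conclusion in terms of coefficients -/
def Goal (n : ℕ) (α β : Linf) : Prop :=
  ∀ k : ℤ, (n : ℤ) < k →
    (c (-1) (mulOp (star α) (e (k - 1))) = 0 ∧ c (-1) (mulOp β (e (k - 1))) = 0) ∧
    (c (-1) (mulOp (star β) (e (k - 1))) = 0 ∧ c (-1) (mulOp α (e (k - 1))) = 0)

lemma caseA (h : Hyp Φ α β Φ) (hi : Inv Φ α β Φ) (hΦ : Co n Φ a) (hn : 1 ≤ n) (ha : a n ≠ 0)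
    {f g f' g' : L2} (hm : Mem α β f g) (hm' : Mem α β f' g')
    (hdet : x1 Φ α β f g * x2 Φ α β f' g' - x2 Φ α β f g * x1 Φ α β f' g' ≠ 0) :
    Goal n α β := by
  obtain ⟨r1, r2⟩ := hm.rows h hΦ
  obtain ⟨r1', r2'⟩ := hm'.rows h hΦ
  have hd := algA hdet (hm.star_id h hi hΦ r1 r2) (hm'.star_id h hi hΦ r1' r2')
    (hm.star_id h hi hΦ r1' r2')
  intro k hk
  have hk1 : e (k - 1) ∈ hardy := e_mem (by omega)
  have hn1 : e ((n : ℤ) - 1) ∈ hardy := e_mem (by omega)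
  constructor
  · have a1 := hm.col1 h hi hΦ hk1
    have a2 := hm'.col1 h hi hΦ hk1
    have a3 := hm.col1 h hi hΦ hn1
    have a4 := hm'.col1 h hi hΦ hn1
    rw [hΦ.high hk, mul_zero, zero_add] at a1 a2
    rw [hΦ.at_n] at a3 a4
    exact algA2 ha hd a1 a2 a3 a4
  · have a1 := hm.col2 h hi hΦ hk1
    have a2 := hm'.col2 h hi hΦ hk1
    have a3 := hm.col2 h hi hΦ hn1
    have a4 := hm'.col2 h hi hΦ hn1
    rw [hΦ.high hk, mul_zero, add_zero] at a1 a2
    rw [hΦ.at_n, add_comm] at a3 a4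
    refine algA2 ha ?_ a1 a2 a3 a4
    intro h0; apply hd; linear_combination -h0

lemma mem_of_shift {y : L2} (h : ∀ k : ℤ, 0 ≤ k → c (-1) (Z k y) = 0) : y ∈ hardy := by
  rw [mem_hardy]; intro j hj
  have := h (-1 - j) (by omega)
  rw [c_Z] at this
  rw [← this]; congr 1; ring

lemma W1 (h : Hyp Φ α β Φ) (hΦ : Co n Φ a) {s t : ℂ}
    (hW : ∀ f g, Mem α β f g → s * x1 Φ α β f g + t * x2 Φ α β f g = 0) {g : L2}
    (hg : g ∈ hardy) (hg1 : mulOp (star α) g ∈ hardy) :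
    s • mulOp α (mulOp (star α) g) + t • mulOp Φ (mulOp (star α) g) ∈ hardy := by
  apply mem_of_shift
  intro k hk
  have hm : Mem α β (Z k g) 0 :=
    ⟨Z_mem hk hg, Submodule.zero_mem _, by rw [← Z_M]; exact Z_mem hk hg1, by simp⟩
  obtain ⟨h5, h6⟩ := h.left_mem hΦ hm.1 hm.2.2.1
  have := hW _ _ hm
  simp only [x1, x2, row, map_zero, add_zero, c_add] at this
  rw [mem_hardy.mp (hΦ.star_mem h5) _ (by omega), mem_hardy.mp (hΦ.star_mem h6) _ (by omega),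
    ← h.normal1, M_comm (star α) α, M_comm (star α) Φ] at this
  simp only [map_add, map_smul, c_add, c_smul, Z_M]
  linear_combination this

lemma W2 (h : Hyp Φ α β Φ) (hΦ : Co n Φ a) {s t : ℂ}
    (hW : ∀ f g, Mem α β f g → s * x1 Φ α β f g + t * x2 Φ α β f g = 0) {g : L2}
    (hg : g ∈ hardy) (hg1 : mulOp (star β) g ∈ hardy) :
    s • mulOp Φ (mulOp (star β) g) + t • mulOp β (mulOp (star β) g) ∈ hardy := by
  apply mem_of_shift
  intro k hk
  have hm : Mem α β 0 (Z k g) :=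
    ⟨Submodule.zero_mem _, Z_mem hk hg, by simp, by rw [← Z_M]; exact Z_mem hk hg1⟩
  obtain ⟨h5, h6⟩ := h.right_mem hΦ hm.2.1 hm.2.2.2
  have := hW _ _ hm
  simp only [x1, x2, row, map_zero, zero_add, c_add] at this
  rw [mem_hardy.mp (hΦ.star_mem h5) _ (by omega), mem_hardy.mp (hΦ.star_mem h6) _ (by omega),
    h.normal1, M_comm (star β) β, M_comm (star β) Φ] at this
  simp only [map_add, map_smul, c_add, c_smul, Z_M]
  linear_combination this

lemma W_ne (h : Hyp Φ α β Φ) (hΦ : Co n Φ a) (hn : 1 ≤ n) (ha : a n ≠ 0) {s t : ℂ}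
    (hW : ∀ f g, Mem α β f g → s * x1 Φ α β f g + t * x2 Φ α β f g = 0) :
    (s = 0 → t = 0) ∧ (t = 0 → s = 0) := by
  constructor
  · rintro rfl
    obtain ⟨g, hg, hg1, hg2⟩ := h.ker_left hΦ hn ha
    have := mem_hardy.mp (W1 h hΦ hW hg hg1) (-n) (by omega)
    rw [zero_smul, zero_add, c_smul, hΦ.top hg1] at this
    exact (mul_eq_zero.mp this).resolve_right (mul_ne_zero ha hg2)
  · rintro rfl
    obtain ⟨g, hg, hg1, hg2⟩ := h.ker_right hΦ hn ha
    have := mem_hardy.mp (W2 h hΦ hW hg hg1) (-n) (by omega)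
    rw [zero_smul, add_zero, c_smul, hΦ.top hg1] at this
    exact (mul_eq_zero.mp this).resolve_right (mul_ne_zero ha hg2)

lemma Co.c0 (hΦ : Co n Φ a) (hn : 1 ≤ n) (ha : a n ≠ 0) {g : L2} (hg : g ∈ hardy)
    (h1 : mulOp Φ g ∈ hardy) : c 0 g = 0 := by
  have := mem_hardy.mp h1 (-n) (by omega)
  rw [hΦ.top hg] at this
  exact (mul_eq_zero.mp this).resolve_left ha

lemma Zneg_mem {g : L2} (hg : g ∈ hardy) (h0 : c 0 g = 0) : Z (-1) g ∈ hardy := by
  rw [mem_hardy]; intro k hk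
  rw [c_Z]
  by_cases h : k = -1
  · subst h; exact h0
  · exact mem_hardy.mp hg _ (by omega)

lemma c_Zneg (φ : Linf) (g : L2) : c (-1) (mulOp φ (Z (-1) g)) = c 0 (mulOp φ g) := by
  rw [← Z_M, c_Z]; rfl

lemma norm_Ng_Zneg {y : L2} (hy : y ∈ hardy) : ‖Ng (Z (-1) y)‖ = ‖c 0 y‖ := by
  have h1 : ‖e (-1)‖ = 1 := (orthonormal_fourier (T := 1)).1 (-1)
  rw [Ng_shift, Z_Z, add_neg_cancel, Z_zero, Ng_eq hy, map_zero, zero_add, norm_smul, h1, mul_one,
    c_Z]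
  rfl

lemma norm_eq_of_col {ψ χ : Linf} {x p : ℂ} (hx : x ≠ 0) (hxp : ‖p‖ = ‖x‖) {v : L2}
    (h : ∀ k : ℤ, 0 ≤ k → x * c (-1) (mulOp ψ (Z k v)) = p * c (-1) (mulOp χ (Z k v))) :
    ‖Ng (mulOp ψ v)‖ = ‖Ng (mulOp χ v)‖ := by
  have h1 : x • mulOp ψ v - p • mulOp χ v ∈ hardy := by
    apply mem_of_shift
    intro k hk
    simp only [map_sub, map_smul, c_sub, c_smul, Z_M]
    rw [h k hk, sub_self]
  have h2 := Ng_eq h1
  rw [map_sub, map_smul, map_smul, sub_eq_zero] at h2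
  have h3 := congrArg norm h2
  rw [norm_smul, norm_smul, hxp] at h3
  exact mul_left_cancel₀ (norm_ne_zero_iff.mpr hx) h3

lemma caseB (h : Hyp Φ α β Φ) (hi : Inv Φ α β Φ) (hΦ : Co n Φ a) (hn : 1 ≤ n) (ha : a n ≠ 0)
    {f0 g0 : L2} (hm : Mem α β f0 g0) (hx1 : x1 Φ α β f0 g0 ≠ 0) (hx2 : x2 Φ α β f0 g0 ≠ 0)
    (hW : ∀ f g, Mem α β f g →
      (-x2 Φ α β f0 g0) * x1 Φ α β f g + x1 Φ α β f0 g0 * x2 Φ α β f g = 0) :
    Goal n α β := by
  obtain ⟨g, hg, hg1, hg2⟩ := h.ker_left hΦ hn ha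
  obtain ⟨k, hk, hk1, hk2⟩ := h.ker_right hΦ hn ha
  obtain ⟨hΦg, hβg⟩ := h.left_mem hΦ hg hg1
  obtain ⟨hαk, hΦk⟩ := h.right_mem hΦ hk hk1
  have hg0 := hΦ.c0 hn ha hg hΦg
  have hk0 := hΦ.c0 hn ha hk hΦk
  have I1 : -x2 Φ α β f0 g0 * c 0 (mulOp α k) + x1 Φ α β f0 g0 * c 0 (mulOp Φ k) = 0 := by
    have h1 := B0 hk (W1 h hΦ hW hg hg1)
    rw [hk0, zero_mul, inner_add_right, inner_smul_right, inner_smul_right, ← B_M α, ← B_M Φ,
      B0 hαk hg1, B0 hΦk hg1] at h1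
    apply (mul_eq_zero.mp (_ : c 0 (mulOp (star α) g) * _ = 0)).resolve_left hg2
    linear_combination h1
  have I2 : -x2 Φ α β f0 g0 * c 0 (mulOp Φ g) + x1 Φ α β f0 g0 * c 0 (mulOp β g) = 0 := by
    have h1 := B0 hg (W2 h hΦ hW hk hk1)
    rw [hg0, zero_mul, inner_add_right, inner_smul_right, inner_smul_right, ← B_M Φ, ← B_M β,
      B0 hΦg hk1, B0 hβg hk1] at h1
    apply (mul_eq_zero.mp (_ : c 0 (mulOp (star β) k) * _ = 0)).resolve_left hk2
    linear_combination h1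
  have I3 : c 0 (mulOp α k) * c 0 (mulOp (star α) g)
      = c 0 (mulOp (star β) k) * c 0 (mulOp β g) := by
    rw [← B0 hαk hg1, ← B0 hk1 hβg, B_M, B_M, M_comm α, h.normal1]
  have hg' := Zneg_mem hg hg0
  have hk' := Zneg_mem hk hk0
  have R1 := hm.col1 h hi hΦ hg'
  have R2 := hm.col2 h hi hΦ hk'
  simp only [c_Zneg] at R1 R2
  obtain ⟨r1, r2⟩ := hm.rows h hΦ
  obtain ⟨e1, e2⟩ := algB hx1 hx2 hg2 hk2 I1 I2 I3 R1 R2 (hm.star_id h hi hΦ r1 r2) (by
    intro l m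
    have h1 := h.ng (Z_mem (k := 0) le_rfl (Submodule.smul_mem _ l hg'))
      (Z_mem (k := 0) le_rfl (Submodule.smul_mem _ m hk'))
    rw [Z_zero, Z_zero, ← map_smul, ← map_smul] at h1
    simp only [row_Z] at h1
    have s1 : Ng (Z (-1) (row (star Φ) (star β) (l • g) (m • k)))
        = Ng (Z (-1) (m • mulOp (star β) k)) := by
      rw [row, map_add, map_add, Z_M, Ng_eq (hΦ.star_mem (by
        rw [map_smul]; exact Submodule.smul_mem _ l hg')), zero_add, map_smul (mulOp _)]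
    have s2 : Ng (Z (-1) (row (star α) (star Φ) (l • g) (m • k)))
        = Ng (Z (-1) (l • mulOp (star α) g)) := by
      rw [row, map_add, map_add, Z_M _ (star Φ), Ng_eq (hΦ.star_mem (by
        rw [map_smul]; exact Submodule.smul_mem _ m hk')), add_zero, map_smul (mulOp _)]
    rw [s1, s2, norm_Ng_Zneg, norm_Ng_Zneg, norm_Ng_Zneg (Submodule.smul_mem _ m hk1),
      norm_Ng_Zneg (Submodule.smul_mem _ l hg1)] at h1
    · simpa only [row, map_smul, c_add, c_smul] using h1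
    · rw [row, map_smul, map_smul]
      exact Submodule.add_mem _ (Submodule.smul_mem _ _ hβg) (Submodule.smul_mem _ _ hΦk)
    · rw [row, map_smul, map_smul]
      exact Submodule.add_mem _ (Submodule.smul_mem _ _ hΦg) (Submodule.smul_mem _ _ hαk))
  have hc1 : conj (x1 Φ α β f0 g0) ≠ 0 := (map_ne_zero _).mpr hx1
  have hc2 : conj (x2 Φ α β f0 g0) ≠ 0 := (map_ne_zero _).mpr hx2
  have hn1 : e ((n : ℤ) - 1) ∈ hardy := e_mem (by omega)
  have hin : ∀ y : L2, ⟪a n • e (-1), Ng y⟫_ℂ = conj (a n) * c (-1) y := by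
    intro y
    rw [inner_smul_left]
    have : c (-1) (Ng y) = c (-1) y := by rw [c_Ng, if_pos (by omega)]
    rw [← this]; rfl
  have hca : conj (a n) ≠ 0 := (map_ne_zero _).mpr ha
  intro j hj
  have hj1 : e (j - 1) ∈ hardy := e_mem (by omega)
  have hΦj : mulOp Φ (e (j - 1)) ∈ hardy := hΦ.e_mem (by omega)
  have hΦZ : ∀ i : ℤ, 0 ≤ i → c (-1) (mulOp Φ (Z i (e (j - 1)))) = 0 := by
    intro i hi
    rw [← Z_M]; exact mem_hardy.mp (Z_mem hi hΦj) _ (by omega)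
  constructor
  · have n1 : ‖Ng (mulOp (star α) (e (j - 1)))‖ = ‖Ng (mulOp β (e (j - 1)))‖ := by
      apply norm_eq_of_col hc2 (p := conj (p2 Φ α β f0 g0)) (by simpa using e2)
      intro i hi0
      have := hm.col1 h hi hΦ (Z_mem hi0 hj1)
      rwa [hΦZ i hi0, mul_zero, zero_add] at this
    have hβ : c (-1) (mulOp β (e (j - 1))) = 0 := by
      apply (mul_eq_zero.mp (_ : conj (a n) * _ = 0)).resolve_left hca
      apply eq_zero_of_re_le (C := ‖Ng (mulOp (star β) (e (n - 1)))‖ ^ 2)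
      intro t
      have h1 := h.ng (Submodule.smul_mem _ t hj1) hn1
      simp only [row, map_add, map_smul, Ng_eq hΦj, Ng_eq (hΦ.star_mem hj1),
        Ng_eq (hΦ.star_mem hn1), smul_zero, zero_add, add_zero, hΦ.Ng_e] at h1
      rw [add_comm (t • _), norm_add_sq (𝕜 := ℂ), inner_smul_right, hin, norm_smul t, norm_smul t,
        n1] at h1
      simp only [RCLike.re_to_complex] at h1
      nlinarith [sq_nonneg ‖Ng (mulOp α (e (n - 1)))‖, sq_nonneg ‖a n • e (-1)‖,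
        sq_nonneg ‖Ng (mulOp (star β) (e (n - 1)))‖]
    refine ⟨?_, hβ⟩
    have := hm.col1 h hi hΦ hj1
    rw [hβ, hΦ.high hj, mul_zero, mul_zero, add_zero] at this
    exact (mul_eq_zero.mp this).resolve_left hc2
  · have n1 : ‖Ng (mulOp (star β) (e (j - 1)))‖ = ‖Ng (mulOp α (e (j - 1)))‖ := by
      apply norm_eq_of_col hc1 (p := conj (p1 Φ α β f0 g0)) (by simpa using e1)
      intro i hi0
      have := hm.col2 h hi hΦ (Z_mem hi0 hj1)
      rwa [hΦZ i hi0, mul_zero, add_zero] at this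
    have hα : c (-1) (mulOp α (e (j - 1))) = 0 := by
      apply (mul_eq_zero.mp (_ : conj (a n) * _ = 0)).resolve_left hca
      apply eq_zero_of_re_le (C := ‖Ng (mulOp (star α) (e (n - 1)))‖ ^ 2)
      intro t
      have h1 := h.ng hn1 (Submodule.smul_mem _ t hj1)
      simp only [row, map_add, map_smul, Ng_eq hΦj, Ng_eq (hΦ.star_mem hj1),
        Ng_eq (hΦ.star_mem hn1), smul_zero, zero_add, add_zero, hΦ.Ng_e] at h1
      rw [norm_add_sq (𝕜 := ℂ), inner_smul_right, hin, norm_smul t, norm_smul t, n1] at h1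
      simp only [RCLike.re_to_complex] at h1
      nlinarith [sq_nonneg ‖Ng (mulOp β (e (n - 1)))‖, sq_nonneg ‖a n • e (-1)‖,
        sq_nonneg ‖Ng (mulOp (star α) (e (n - 1)))‖]
    refine ⟨?_, hα⟩
    have := hm.col2 h hi hΦ hj1
    rw [hα, hΦ.high hj, mul_zero, mul_zero, add_zero] at this
    exact (mul_eq_zero.mp this).resolve_left hc1

lemma goal_of (h : Hyp Φ α β Φ) (hi : Inv Φ α β Φ) (hΦ : Co n Φ a) (hn : 1 ≤ n)
    (ha : a n ≠ 0) : Goal n α β := by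
  have h0 : ∃ f g, Mem α β f g ∧ (x1 Φ α β f g ≠ 0 ∨ x2 Φ α β f g ≠ 0) := by
    by_contra hc
    push Not at hc
    have := (W_ne h hΦ hn ha (s := 0) (t := 1) (by
      intro f g hm; rw [(hc f g hm).2]; simp)).1 rfl
    exact one_ne_zero this
  obtain ⟨f0, g0, hm, hx⟩ := h0
  by_cases hW : ∀ f g, Mem α β f g →
      (-x2 Φ α β f0 g0) * x1 Φ α β f g + x1 Φ α β f0 g0 * x2 Φ α β f g = 0
  · obtain ⟨w1, w2⟩ := W_ne h hΦ hn ha hW
    rw [neg_eq_zero] at w1 w2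
    have hx1 : x1 Φ α β f0 g0 ≠ 0 := fun h1 => hx.elim (fun h2 => h2 h1) (fun h2 => h2 (w2 h1))
    have hx2 : x2 Φ α β f0 g0 ≠ 0 := fun h1 => hx1 (w1 h1)
    exact caseB h hi hΦ hn ha hm hx1 hx2 hW
  · push Not at hW
    obtain ⟨f, g, hm', hd⟩ := hW
    refine caseA h hi hΦ hn ha hm hm' ?_
    intro h1; apply hd; linear_combination h1

theorem main {n : ℕ} (hn : 1 ≤ n) {Φ Ψ α β : Linf} (hΦ : IsCoanalyticPoly n Φ)
    (hΨ : IsCoanalyticPoly n Ψ) (hT : IsSubnormal.{u} (blockToeplitz Φ α β Ψ)) :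
    Φ = Ψ ∧ IsTrigPoly n α ∧ IsTrigPoly n β := by
  obtain ⟨a, ha, hΦa⟩ := hΦ
  obtain ⟨b, hb, hΨb⟩ := hΨ
  obtain ⟨h, hi⟩ := hyp_inv hT
  have cΦ : Co n Φ a := c_M_poly hΦa
  have cΨ : Co n Ψ b := c_M_poly hΨb
  have hab := h.coef_eq cΦ cΨ hn hb
  have hΦΨ : Φ = Ψ := by
    apply Lp.ext
    filter_upwards [hΦa, hΨb] with x h1 h2
    rw [h1, h2]
    apply Finset.sum_congr rfl
    intro k hk
    rw [hab k (by have := Finset.mem_range.mp hk; omega)]
  subst hΦΨ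
  have hg := goal_of h hi cΦ hn ha
  refine ⟨rfl, isTrigPoly_of (fun k hk => ?_) (fun k hk => ?_),
    isTrigPoly_of (fun k hk => ?_) (fun k hk => ?_)⟩
  · rw [← c_M_e]; exact (hg k hk).2.2
  · rw [← c_M_e]; exact (hg k hk).1.1
  · rw [← c_M_e]; exact (hg k hk).1.2
  · rw [← c_M_e]; exact (hg k hk).2.1

end

end Pool.Agent.MP_0ce33b_an

end
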