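import Pool.Agent.MP_0ce33b_an.Mg.Core
import Pool.Agent.MP_0ce33b_an.Stmt

namespace Pool.Agent.MP_0ce33b_an

open MeasureTheory
open scoped InnerProductSpace ComplexConjugate

universe u

lemma IsHardySpace.eq {H : Submodule ℂ L2} (h : IsHardySpace H) : H = hardy := by
  ext f
  rw [h.mem_iff, mem_hardy]
  have : ∀ k, fourierCoeff f k = c k f := by
    intro k
    rw [← fourierBasis_repr, HilbertBasis.repr_apply_apply, coe_fourierBasis]; rfl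
  simp only [this]

lemma IsToeplitz.eq {φ : AddCircle (1 : ℝ) → ℂ} (hφ : MemLp φ ⊤ μ0) {A : hardy →L[ℂ] hardy}
    (h : IsToeplitz hardy φ A) : A = toeplitz (hφ.toLp φ) := by
  ext1 f
  apply ext_inner_left ℂ
  intro g
  rw [h.inner_eq]
  have h1 : ⟪g, toeplitz (hφ.toLp φ) f⟫_ℂ = ⟪(g : L2), P (mulOp (hφ.toLp φ) f)⟫_ℂ := rfl
  rw [h1, inner_P_right g.2, L2.inner_def]
  apply integral_congr_ae
  filter_upwards [coeFn_M (hφ.toLp φ) f, hφ.coeFn_toLp] with x h2 h3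
  rw [h2, h3, RCLike.inner_apply, mul_comm]

lemma IsCoanalytic.continuous {n : ℕ} {φ : AddCircle (1 : ℝ) → ℂ} (h : IsCoanalytic n φ) :
    Continuous φ := by
  obtain ⟨a, -, h⟩ := h.exists_coeff
  rw [show φ = _ from funext h]
  fun_prop

lemma IsCoanalytic.memLp {n : ℕ} {φ : AddCircle (1 : ℝ) → ℂ} (h : IsCoanalytic n φ) :
    MemLp φ ⊤ μ0 :=
  h.continuous.memLp_top_of_hasCompactSupport (HasCompactSupport.of_compactSpace φ) _

lemma IsCoanalytic.toLp {n : ℕ} {φ : AddCircle (1 : ℝ) → ℂ} (h : IsCoanalytic n φ) :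
    IsCoanalyticPoly n (h.memLp.toLp φ) := by
  obtain ⟨a, ha, h1⟩ := h.exists_coeff
  refine ⟨a, ha, ?_⟩
  filter_upwards [h.memLp.coeFn_toLp] with x hx
  rw [hx, h1]

lemma IsTrigPoly.isTrig {n : ℕ} {φ : AddCircle (1 : ℝ) → ℂ} (hφ : MemLp φ ⊤ μ0)
    (h : IsTrigPoly n (hφ.toLp φ)) : IsTrig n φ := by
  obtain ⟨c, hc⟩ := h
  refine ⟨c, ?_⟩
  filter_upwards [hφ.coeFn_toLp, hc] with x h1 h2
  rw [← h1, h2]

theorem final (H : Submodule ℂ L2) (hH : IsHardySpace H) (n : ℕ) (hn : 1 ≤ n)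
    (Φ Ψ α β : AddCircle (1 : ℝ) → ℂ) (hΦ : IsCoanalytic n Φ) (hΨ : IsCoanalytic n Ψ)
    (hα : MemLp α ⊤ μ0) (hβ : MemLp β ⊤ μ0) (A B C D : H →L[ℂ] H)
    (hA : IsToeplitz H Φ A) (hB : IsToeplitz H α B) (hC : IsToeplitz H β C)
    (hD : IsToeplitz H Ψ D) (T : WithLp 2 (H × H) →L[ℂ] WithLp 2 (H × H))
    (hT : IsBlock A B C D T) (hs : IsSubnormalOp.{u} T) :
    Φ = Ψ ∧ IsTrig n α ∧ IsTrig n β := by
  obtain rfl := hH.eq
  have hTe : T = blockToeplitz (hΦ.memLp.toLp Φ) (hα.toLp α) (hβ.toLp β) (hΨ.memLp.toLp Ψ) := by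
    ext1 x
    have h1 := hT.fst_eq x
    have h2 := hT.snd_eq x
    rw [hA.eq hΦ.memLp, hB.eq hα] at h1
    rw [hC.eq hβ, hD.eq hΨ.memLp] at h2
    apply WithLp.ofLp_injective 2
    exact Prod.ext h1 h2
  obtain ⟨h1, h2, h3⟩ := main hn hΦ.toLp hΨ.toLp (by rw [← hTe]; exact hs.exists_normal)
  refine ⟨?_, h2.isTrig hα, h3.isTrig hβ⟩
  have h4 : Φ =ᵐ[μ0] Ψ := by
    have h5 := hΦ.memLp.coeFn_toLp
    rw [h1] at h5
    exact h5.symm.trans hΨ.memLp.coeFn_toLp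
  exact (hΦ.continuous.ae_eq_iff_eq μ0 hΨ.continuous).mp h4

end Pool.Agent.MP_0ce33b_an
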